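import Pool.Agent.H667R5.NX.NU.StubsII
import Pool.Agent.H327R4.SI.TGL

/-!
# GLJ: excision of completely positive maps carried by an ideal (helper238, after helper254)
-/

set_option autoImplicit false

namespace Pool.Agent.H327R4.ND

open Filter Topology Pool.Agent.H327R4.Pure
open Pool.Agent.H327R4.SI (RI Ex Dc CPto CPF StRIB)
open Pool.Agent.H270R2.NU

universe u

namespace TGLJ

variable {A : Type u} [CStarAlgebra A] [PartialOrder A] [StarOrderedRing A]

theorem smul_mem {D : Set A} (hD : Core0 A D) {x : A} (hx : x ∈ D) (t : ℝ) : t • x ∈ D := by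
  have h := hD.smul (t : ℂ) x hx
  rwa [Complex.coe_smul] at h

theorem dg_nonneg {N : ℕ} (u : A) (hu : 0 ≤ u) : 0 ≤ (dg (fun _ => u) : MM N A) := by
  obtain ⟨x, rfl⟩ := SI.TGL.exs u hu
  have h : (dg (fun _ => star x * x) : MM N A) = star (dg (fun _ => x)) * dg (fun _ => x) := by
    ext i j
    rw [CStarMatrix.mul_apply, dg_apply, Finset.sum_eq_single i]
    · rw [CStarMatrix.star_apply, dg_apply, dg_apply]
      by_cases hij : i = j
      · subst hij; simp
      · simp [hij]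
    · intro l _ hl
      rw [CStarMatrix.star_apply, dg_apply, if_neg hl]
      simp
    · simp
  rw [h]
  exact star_mul_self_nonneg _

theorem one_sub_dg {N : ℕ} (u : A) : (1 : MM N A) - dg (fun _ => u) = dg (fun _ => 1 - u) := by
  ext i j
  rw [CStarMatrix.sub_apply, CStarMatrix.one_apply, dg_apply, dg_apply]
  by_cases hij : i = j
  · simp [hij]
  · simp [hij]

theorem Ps_dg {N : ℕ} (ρ : A →ₗ[ℂ] Matrix (Fin N) (Fin N) ℂ) (u : A) :
    SI.TGL.Ps ρ (dg (fun _ => u)) = ∑ p, ρ u p p := by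
  rw [SI.TGL.Ps_apply]
  refine Finset.sum_congr rfl (fun p _ => ?_)
  rw [Finset.sum_eq_single p]
  · rw [dg_apply, if_pos rfl]
  · intro j _ hj
    rw [dg_apply, if_neg (Ne.symm hj), map_zero]
    rfl
  · simp

end TGLJ

theorem t_GLD (hX7 : StX7D.{u}) (hX8 : StX8D.{u}) : StGLD.{u} := by
  intro A _ _ _ J hD N ρ k y ε hρ hε
  -- trivial solution
  have triv : (∀ i p q, ρ (y i) p q = 0) → ∃ (D : Fin N → A) (g : A), (∀ p, D p ∈ J) ∧ g ∈ J ∧
      0 ≤ g ∧ ‖g‖ = 1 ∧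
      ∀ i p q, ‖star (D p) * y i * D q - ρ (y i) p q • g‖ ≤ ε := by
    intro h0
    obtain ⟨c, hc, hc0, hcne⟩ : ∃ c ∈ J, 0 ≤ c ∧ c ≠ 0 := by
      obtain ⟨x, hx, hx0⟩ := hD.nonzero
      exact ⟨star x * x, hD.mul_left _ _ hx, star_mul_self_nonneg x,
        fun h => hx0 (CStarRing.star_mul_self_eq_zero_iff x |>.mp h)⟩
    have hcn : ‖c‖ ≠ 0 := norm_ne_zero_iff.mpr hcne
    refine ⟨0, ‖c‖⁻¹ • c, fun p => hD.zero, TGLJ.smul_mem hD hc _,
      smul_nonneg (by positivity) hc0, ?_, fun i p q => ?_⟩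
    · rw [norm_smul, norm_inv, norm_norm, inv_mul_cancel₀ hcn]
    · rw [h0, zero_smul, Pi.zero_apply, Pi.zero_apply, mul_zero, sub_zero, norm_zero]
      exact hε.le
  rcases Nat.eq_zero_or_pos N with hN | hN
  · subst hN
    exact triv (fun _ p _ => p.elim0)
  set r : ℝ := (SI.TGL.Ps ρ 1).re with hr
  have hrpos : 0 ≤ r := by
    have := (SI.TGL.Ps_pos ρ hρ 1).1
    rwa [star_one, one_mul] at this
  have him : (SI.TGL.Ps ρ 1).im = 0 := by
    have := (SI.TGL.Ps_pos ρ hρ 1).2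
    rwa [star_one, one_mul] at this
  rcases hrpos.eq_or_lt with hr0 | hr0
  · refine triv (fun i p q => ?_)
    rw [← SI.TGL.Ps_E ρ p q (y i)]
    exact SI.TGL.zero_of_one (SI.TGL.Ps ρ) (SI.TGL.Ps_pos ρ hρ) hr0.symm _
  -- the state
  have hD' := hX8 A J hD N hN
  have hΨ1 : SI.TGL.Ps ρ 1 = (r : ℂ) := by
    apply Complex.ext
    · rw [Complex.ofReal_re]
    · rw [Complex.ofReal_im, him]
  have hrc : (r : ℂ) ≠ 0 := by exact_mod_cast hr0.ne'
  have hNpos : (0:ℝ) < N := by exact_mod_cast hN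
  have hst : SI.IsSt (((r:ℂ)⁻¹) • SI.TGL.Ps ρ) := by
    refine ⟨?_, fun x => ?_⟩
    · rw [LinearMap.smul_apply, hΨ1, smul_eq_mul, inv_mul_cancel₀ hrc]
    · have h1 := SI.TGL.Ps_pos ρ hρ x
      rw [LinearMap.smul_apply, smul_eq_mul, ← Complex.ofReal_inv, Complex.re_ofReal_mul,
        Complex.im_ofReal_mul, h1.2, mul_zero]
      exact ⟨mul_nonneg (inv_nonneg.mpr hr0.le) h1.1, rfl⟩
  let e := Fintype.equivFin (Fin k × Fin N × Fin N)
  have hε' : 0 < ε / (r * N + 1) := by positivity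
  obtain ⟨H, G, hHJ, hGJ, hG, hG1, hHG⟩ := hX7 (MM N A) {M | ∀ i j, M i j ∈ J} hD'
    (((r:ℂ)⁻¹) • SI.TGL.Ps ρ)
    (Fintype.card (Fin k × Fin N × Fin N))
    (fun m => SI.TGL.E (e.symm m).2.1 (e.symm m).2.2 (y (e.symm m).1)) (ε / (r * N + 1)) hst hε'
  have hHG' : ∀ (i : Fin k) (p q κ : Fin N),
      ‖star (H p κ) * y i * H q κ - ((r:ℂ)⁻¹ * ρ (y i) p q) • G κ κ‖ ≤ ε / (r * N + 1) := by
    intro i p q κ
    have h1 := hHG (e (i, p, q))
    simp only [Equiv.symm_apply_apply] at h1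
    rw [LinearMap.smul_apply, SI.TGL.Ps_E, smul_eq_mul] at h1
    refine le_trans ?_ h1
    have h2 := CStarMatrix.norm_entry_le_norm (M := star H * SI.TGL.E p q (y i) * H
      - ((r:ℂ)⁻¹ * ρ (y i) p q) • G) (i := κ) (j := κ)
    rw [CStarMatrix.sub_apply, SI.TGL.conj_E, CStarMatrix.smul_apply] at h2
    exact h2
  -- choose the entry
  obtain ⟨κ, hκ⟩ : ∃ κ : Fin N, 1 / (N:ℝ) ≤ ‖G κ κ‖ := by
    by_contra hcon
    push Not at hcon
    have h1 := SI.TGL.norm_le_sum G hG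
    rw [hG1] at h1
    have h2 : ∑ κ, ‖G κ κ‖ < ∑ _κ : Fin N, 1 / (N:ℝ) := by
      refine Finset.sum_lt_sum_of_nonempty ⟨⟨0, hN⟩, Finset.mem_univ _⟩ (fun κ _ => hcon κ)
    rw [Finset.sum_const, Finset.card_univ, Fintype.card_fin, nsmul_eq_mul,
      mul_one_div_cancel hNpos.ne'] at h2
    linarith
  have hGk : 0 < ‖G κ κ‖ := lt_of_lt_of_le (by positivity) hκ
  set n0 : ℝ := ‖G κ κ‖ with hn0
  set s : ℝ := Real.sqrt (r / n0) with hs0
  have hss : s * s = r / n0 := Real.mul_self_sqrt (by positivity)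
  refine ⟨fun p => s • H p κ, n0⁻¹ • G κ κ, ?_, ?_, ?_, ?_, ?_⟩
  · intro p
    exact TGLJ.smul_mem hD (hHJ p κ) s
  · exact TGLJ.smul_mem hD (hGJ κ κ) _
  · exact smul_nonneg (by positivity) (SI.TGL.diag_nonneg G hG κ)
  · rw [norm_smul, Real.norm_eq_abs, abs_of_nonneg (by positivity), ← hn0,
      inv_mul_cancel₀ hGk.ne']
  · intro i p q
    have h1 : star (s • H p κ) * y i * (s • H q κ) - ρ (y i) p q • (n0⁻¹ • G κ κ)
        = (r / n0) • (star (H p κ) * y i * H q κ - ((r:ℂ)⁻¹ * ρ (y i) p q) • G κ κ) := by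
      rw [star_smul, star_trivial, smul_mul_assoc, smul_mul_assoc, mul_smul_comm, smul_smul, hss,
        smul_sub]
      congr 1
      rw [← Complex.coe_smul (r / n0), smul_smul, ← Complex.coe_smul n0⁻¹, smul_smul]
      congr 1
      push_cast
      field_simp
    rw [h1, norm_smul, Real.norm_eq_abs, abs_of_nonneg (by positivity)]
    have h2 : r / n0 ≤ r * N := by
      rw [div_le_iff₀ hGk]
      have h3 : 1 ≤ N * n0 := by
        rw [div_le_iff₀ hNpos] at hκ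
        linarith
      nlinarith
    calc r / n0 * ‖star (H p κ) * y i * H q κ - ((r:ℂ)⁻¹ * ρ (y i) p q) • G κ κ‖
        ≤ (r * N) * (ε / (r * N + 1)) := by
          gcongr
          exact hHG' i p q κ
      _ ≤ ε := by
          rw [mul_div_assoc', div_le_iff₀ (by positivity)]
          nlinarith

end Pool.Agent.H327R4.ND
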