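import Pool.Agent.H667R5.NX.NU.StubsII
import Pool.Agent.H327R4.Pure.All4

/-!
# Task ROWSJ: rows in a right ideal from strict comparison in an ideal
-/

set_option autoImplicit false

namespace Pool.Agent.H327R4.ND

open Filter Topology Pool.Agent.H327R4.Pure
open Pool.Agent.H327R4.SI (RI Ex Dc CPto CPF StRIB)
open Pool.Agent.H270R2.NU

universe u v

theorem rowsj_map_cut {B : Type u} {C : Type v} [NonUnitalCStarAlgebra B] [NonUnitalCStarAlgebra C]
    (φ : B →⋆ₙₐ[ℂ] C) (hcont : Continuous φ) (ε : ℝ) (hε : 0 ≤ ε) (a : B)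
    (ha : IsSelfAdjoint a) : φ (cut ε a) = cut ε (φ a) := by
  have hc : Continuous (fun x : ℝ => max (x - ε) 0) := by fun_prop
  have h0 : max ((0 : ℝ) - ε) 0 = 0 := by simp [hε]
  exact NonUnitalStarAlgHomClass.map_cfcₙ (S := ℂ) φ _ a hc.continuousOn h0 hcont ha (ha.map φ)

theorem rowsj_cut_dg {A : Type u} [CStarAlgebra A] [PartialOrder A] [StarOrderedRing A] {K : ℕ}
    (a : Fin K → A) (ha : ∀ j, 0 ≤ a j) (ε : ℝ) (hε : 0 ≤ ε) :
    cut ε (dg a) = dg (fun j => cut ε (a j)) := by
  have hsa : IsSelfAdjoint a := by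
    funext j
    exact IsSelfAdjoint.of_nonneg (ha j)
  have e2 : cut ε a = fun j => cut ε (a j) := by
    funext j
    exact rowsj_map_cut (Pi.evalNonUnitalStarAlgHom ℂ (fun _ : Fin K => A) j)
      (continuous_apply j) ε hε a hsa
  rw [← e2, ← dgHom_apply, ← dgHom_apply]
  exact (rowsj_map_cut (dgHom A K) (map_continuous (dgHom A K)) ε hε a hsa).symm

theorem rowsj_rk_zero {B : Type u} [NonUnitalCStarAlgebra B] (T : Tr B) : rk T (0 : B) = 0 := by
  have h : ∀ k : ℕ, phi (1 / ((k : ℝ) + 1)) (0 : B) = 0 := by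
    intro k
    unfold phi
    exact cfcₙ_apply_zero
  unfold rk
  simp_rw [h]
  simp

theorem t_ROWSD (hRIB : StRIB.{u}) : StROWSD.{u} := by
  intro A _ _ _ J hD hS L e b ε heJ he hbJ hb hb0 hε hT
  have hJ0 : (0 : A) ∈ J := hD.zero
  obtain ⟨-, hRmul, -, -, -, hRcfc, -, -, -⟩ := hRIB A
  let va : Fin (L + 1) → A := Fin.snoc (fun _ => e) 0
  let vb : Fin (L + 1) → A := Fin.snoc (fun _ => 0) b
  have hva : ∀ j, 0 ≤ va j := by
    intro j
    refine Fin.lastCases ?_ ?_ j
    · simp [va]
    · intro i; simpa [va] using he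
  have hvb : ∀ j, 0 ≤ vb j := by
    intro j
    refine Fin.lastCases ?_ ?_ j
    · simpa [vb] using hb
    · intro i; simp [vb]
  obtain ⟨hpa, hrka⟩ := diag' A (L + 1) va hva
  obtain ⟨hpb, hrkb⟩ := diag' A (L + 1) vb hvb
  have hrka' : ∀ T : Tr A, rk (trM T (Fin (L + 1))) (dg va) = L * rk T e := by
    intro T
    rw [hrka, Fin.sum_univ_castSucc]
    simp [va, rowsj_rk_zero]
  have hrkb' : ∀ T : Tr A, rk (trM T (Fin (L + 1))) (dg vb) = rk T b := by
    intro T
    rw [hrkb, Fin.sum_univ_castSucc]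
    simp [vb, rowsj_rk_zero]
  have hvb0 : dg vb ≠ 0 := by
    intro h
    have h1 : dg vb (Fin.last L) (Fin.last L) = 0 := by rw [h]; rfl
    rw [dg_apply, if_pos rfl] at h1
    apply hb0
    simpa [vb] using h1
  have hvaJ : ∀ j, va j ∈ J := by
    intro j
    refine Fin.lastCases ?_ ?_ j
    · simpa [va] using hJ0
    · intro i; simpa [va] using heJ
  have hvbJ : ∀ j, vb j ∈ J := by
    intro j
    refine Fin.lastCases ?_ ?_ j
    · simpa [vb] using hbJ
    · intro i; simpa [vb] using hJ0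
  have hdgJ : ∀ v : Fin (L + 1) → A, (∀ j, v j ∈ J) → ∀ p q, dg v p q ∈ J := by
    intro v hv p q
    rw [dg_apply]
    split_ifs
    · exact hv _
    · exact hJ0
  have hCz : Cz (dg va) (dg vb) := by
    refine hS (L + 1) (dg va) (dg vb) hpa hpb hvb0 (hdgJ va hvaJ) (hdgJ vb hvbJ) ?_
    intro T hT1
    rw [hrka', hrkb']
    exact hT T hT1
  obtain ⟨δ, X, hδ, hX⟩ := exa' (MM (L + 1) A) (dg va) (dg vb) ε hpa hpb hCz hε
  rw [rowsj_cut_dg va hva ε hε.le, rowsj_cut_dg vb hvb δ hδ.le] at hX
  -- the square root of `cut δ b`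
  let f : ℝ → ℝ := fun x => Real.sqrt (max (x - δ) 0)
  have hf : Continuous f := by fun_prop
  have hf0 : f 0 = 0 := by simp [f, hδ.le]
  have hq : cfcₙ f b * cfcₙ f b = cut δ b := by
    rw [← cfcₙ_mul f f b hf.continuousOn hf0 hf.continuousOn hf0]
    unfold cut
    congr 1
    funext x
    exact Real.mul_self_sqrt (le_max_right _ _)
  have hqs : star (cfcₙ f b) = cfcₙ f b := (cfcₙ_predicate f b).star_eq
  have hqR : cfcₙ f b ∈ RI b := hRcfc b f hb hf hf0
  refine ⟨fun l => cfcₙ f b * star (X l.castSucc (Fin.last L)), ?_, ?_⟩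
  · intro l l'
    have h1 := congrFun (congrFun hX l.castSucc) l'.castSucc
    rw [dg_apply] at h1
    have h2 : (X * dg (fun j => cut δ (vb j)) * star X) l.castSucc l'.castSucc
        = X l.castSucc (Fin.last L) * cut δ b * star (X l'.castSucc (Fin.last L)) := by
      rw [CStarMatrix.mul_apply, Fin.sum_univ_castSucc]
      have h3 : ∀ j : Fin (L + 1), (X * dg (fun j => cut δ (vb j))) l.castSucc j
          = X l.castSucc j * cut δ (vb j) := by
        intro j
        rw [CStarMatrix.mul_apply, Finset.sum_eq_single j]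
        · rw [dg_apply, if_pos rfl]
        · intro k _ hk
          rw [dg_apply, if_neg hk, mul_zero]
        · simp
      have hc0 : cut δ (0 : A) = 0 := by
        unfold cut
        exact cfcₙ_apply_zero
      simp only [h3, CStarMatrix.star_apply]
      simp [vb, hc0]
    rw [h2] at h1
    rw [star_mul, star_star, hqs]
    calc X l.castSucc (Fin.last L) * cfcₙ f b * (cfcₙ f b * star (X l'.castSucc (Fin.last L)))
        = X l.castSucc (Fin.last L) * (cfcₙ f b * cfcₙ f b)
            * star (X l'.castSucc (Fin.last L)) := by noncomm_ring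
      _ = X l.castSucc (Fin.last L) * cut δ b * star (X l'.castSucc (Fin.last L)) := by rw [hq]
      _ = if l = l' then cut ε e else 0 := by
          rw [← h1]
          by_cases hl : l = l'
          · subst hl; simp [va]
          · have : l.castSucc ≠ l'.castSucc := fun h => hl (Fin.castSucc_injective _ h)
            simp [hl]
  · intro l
    exact hRmul b _ _ hqR

end Pool.Agent.H327R4.ND
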